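import Pool.Agent.Lib_helper57.AFF.Defs
import Pool.Agent.Lib_helper74.NE.Univ
import Pool.Agent.Lib_helper40.TDB.UP

/-!
# Project AFF, block G: substitution of a polynomial time computable oracle
-/

set_option autoImplicit false

namespace Pool.Agent.AFF

open Pool.Agent.CK Pool.Agent.CKP

section

variable {γ : Type} [ToD γ]

theorem g_stepU {Ov X : Lang} (h : PTime X (fun w : List Bool => Ov w)) :
    PTime X (stepU Ov) := by
  unfold stepU
  refine PTime.lcase (l := fun q : List D × List (List Bool) => q.1) (n := fun q => q)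
    (c := fun q c K => stepC Ov c K q.2) PTime.id.fst PTime.id ?_
  have hS : PTime X (fun p : (List D × List (List Bool)) × D × List D => p.1.2) :=
    PTime.id.fst.snd
  have hc : PTime X (fun p : (List D × List (List Bool)) × D × List D => p.2.1) :=
    PTime.id.snd.fst
  have hK : PTime X (fun p : (List D × List (List Bool)) × D × List D => p.2.2) :=
    PTime.id.snd.snd
  have hr : PTime X (fun p : (List D × List (List Bool)) × D × List D => regU p.2.1) :=
    hc.cdr.car.toList
  have hg := PTime.getU hS hr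
  unfold stepC
  refine PTime.ite (hc.tagIs 1) (hK.pair (PTime.setU hS hr (PTime.cons hc.cdr.cdr.toBool hg))) ?_
  refine PTime.ite (hc.tagIs 2) (hK.pair (PTime.setU hS hr (PTime.tail hg))) ?_
  refine PTime.ite (hc.tagIs 3) ((hc.cdr.car.cons (hc.cdr.cdr.cons hK)).pair hS) ?_
  refine PTime.ite (hc.tagIs 4) (((PTime.ite (PTime.isNil hg) hc.cdr.cdr.car
    (PTime.ite (PTime.headD hg (PTime.const false)) hc.cdr.cdr.cdr.cdr
      hc.cdr.cdr.cdr.car)).cons hK).pair hS) ?_
  refine PTime.ite (hc.tagIs 5) (PTime.ite (PTime.isNil hg) (hK.pair hS)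
    ((hc.cdr.cdr.cons (hc.cons hK)).pair hS)) ?_
  exact PTime.ite (hc.tagIs 6) (((PTime.ite (PTime.comp h hg) hc.cdr.cdr.cdr
    hc.cdr.cdr.car).cons hK).pair hS) (hK.pair hS)

/-- The universal simulation is polynomial. -/
theorem g_runU {Ov X : Lang} (h : PTime X (fun w : List Bool => Ov w)) {c : γ → D} {S : γ → List (List Bool)} {N : γ → List Unit}
    (hc : PTime X c) (hS : PTime X S) (hN : PTime X N) :
    PTime X (fun x => CKP.runU Ov ([c x], S x) (N x)) := by
  obtain ⟨Pc, hPc⟩ := hc.size_le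
  obtain ⟨PS, hPS⟩ := hS.size_le
  obtain ⟨PN, hPN⟩ := hN.size_le
  unfold CKP.runU
  refine PTime.foldl (l := N) (i := fun x => ([c x], S x)) (s := fun _ q _ => stepU Ov q) hN
    ((PTime.cons hc (PTime.const [])).pair hS) ((g_stepU h).comp PTime.id.snd.fst)
    ((1 + PN) * (Pc + 1) + 1 + (PS + PN * (2 * Pc + 8)) + 1) ?_
  intro x l' hl'
  have h1 := runU_bound (O := Ov) (sz (c x)) l' ([c x], S x) (by
    intro d hd
    simp only [List.mem_singleton] at hd
    rw [hd])
  unfold CKP.runU at h1
  obtain ⟨g1, g2, g3⟩ := h1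
  generalize l'.foldl (fun q _ => stepU Ov q) ([c x], S x) = q at g1 g2 g3
  have h2 : l'.length ≤ PN.eval (sz x) :=
    (hl'.length_le.trans (length_le_sz _)).trans (hPN x)
  have h3 := sz_list_le q.1 g1
  have h4 := hPc x
  have h5 := hPS x
  have h6 : q.1.length * (sz (c x) + 1) ≤ (1 + PN.eval (sz x)) * (Pc.eval (sz x) + 1) := by
    apply Nat.mul_le_mul
    · simp only [List.length_singleton] at g2; omega
    · omega
  have h7 : l'.length * (2 * sz (c x) + 8) ≤ PN.eval (sz x) * (2 * Pc.eval (sz x) + 8) := by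
    apply Nat.mul_le_mul h2
    omega
  have h8 : sz q = sz q.1 + sz q.2 + 1 := rfl
  simp only [Polynomial.eval_add, Polynomial.eval_mul, Polynomial.eval_ofNat,
    Polynomial.eval_one]
  simp only at g3
  omega


theorem g_outU {Ov X : Lang} (h : PTime X (fun w : List Bool => Ov w)) {c : γ → D}
    {x y : γ → List Bool} {N : γ → List Unit} (hc : PTime X c)
    (hx : PTime X x) (hy : PTime X y) (hN : PTime X N) :
    PTime X (fun a => CKP.outU Ov (c a) (x a) (y a) (N a)) :=
  PTime.headD (g_runU h hc (PTime.cons hx (PTime.cons hy (PTime.const []))) hN).snd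
    (PTime.const [])

theorem g_accU {Ov X : Lang} (h : PTime X (fun w : List Bool => Ov w)) {c : γ → D}
    {x y : γ → List Bool} {N : γ → List Unit} (hc : PTime X c)
    (hx : PTime X x) (hy : PTime X y) (hN : PTime X N) :
    PTime X (fun a => CKP.accU Ov (c a) (x a) (y a) (N a)) :=
  (PTime.isNil (g_runU h hc (PTime.cons hx (PTime.cons hy (PTime.const []))) hN).fst).and
    (PTime.headD (g_outU h hc hx hy hN) (PTime.const false))

end

theorem sub_InFP {Ov X : Lang} (h : PTime X (fun w : List Bool => Ov w))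
    {f : List Bool → List Bool} (hf : InFP Ov f) : InFP X f := by
  obtain ⟨c, k, hc⟩ := hf
  refine inFP_of ((g_outU h (c := fun _ => cmdD c) (x := fun x => x) (y := fun _ => [])
    (N := fun x : List Bool => List.replicate ((x.length + 2) ^ k) ()) (PTime.const _) PTime.id
    (PTime.const _) ((UPoly.tb k).comp PTime.id)).of_eq fun x => ?_)
  rw [outU_eq, List.length_replicate]
  exact (hc x).2

theorem sub_InP {Ov X : Lang} (h : PTime X (fun w : List Bool => Ov w)) {A : Lang}
    (hA : InP Ov A) : InP X A := by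
  obtain ⟨c, k, hc⟩ := hA
  refine inP_of ((g_accU h (c := fun _ => cmdD c) (x := fun x => x) (y := fun _ => [])
    (N := fun x : List Bool => List.replicate ((x.length + 2) ^ k) ()) (PTime.const _) PTime.id
    (PTime.const _) ((UPoly.tb k).comp PTime.id)).of_eq fun x => ?_)
  have h1 := accU_iff (O := Ov) c x [] (List.replicate ((x.length + 2) ^ k) ())
  rw [List.length_replicate, (hc x).2] at h1
  rw [Bool.eq_iff_iff]
  exact h1

/-- the verifier which simulates `c` with the witness bound `(|x| + 2) ^ k` -/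
def g_V (Ov : Lang) (c : Cmd) (k : ℕ) (p : List Bool × List Bool) : Bool :=
  decide (p.2.length ≤ (p.1.length + 2) ^ k) &&
    CKP.accU Ov (cmdD c) p.1 p.2 (List.replicate ((p.1.length + 2) ^ k) ())

theorem g_V_ptime {Ov X : Lang} (h : PTime X (fun w : List Bool => Ov w)) (c : Cmd) (k : ℕ) :
    PTime X (g_V Ov c k) := by
  have h1 : PTime X (fun p : List Bool × List Bool => p.1) := PTime.id.fst
  have h2 : PTime X (fun p : List Bool × List Bool => p.2) := PTime.id.snd
  have hN : PTime X (fun p : List Bool × List Bool =>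
      List.replicate ((p.1.length + 2) ^ k) ()) := (UPoly.tb k).comp h1
  have hl : PTime X (fun p : List Bool × List Bool => (p.1.length + 2) ^ k) :=
    (PTime.length hN).of_eq fun p => List.length_replicate ..
  exact (PTime.nat_le (PTime.length h2) hl).and (g_accU h (PTime.const _) h1 h2 hN)

theorem g_V_iff (Ov : Lang) (c : Cmd) (k : ℕ) (x y : List Bool) :
    g_V Ov c k (x, y) = true ↔
      y.length ≤ (x.length + 2) ^ k ∧ Accepts Ov c x y ((x.length + 2) ^ k) := by
  unfold g_V
  rw [Bool.and_eq_true, decide_eq_true_iff, accU_iff, List.length_replicate]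

theorem sub_InNP {Ov X : Lang} (h : PTime X (fun w : List Bool => Ov w)) {A : Lang}
    (hA : InNP Ov A) : InNP X A := by
  obtain ⟨c, k, -, h2⟩ := hA
  refine inNP_of (g_V_ptime h c k) (UPoly.tb k) (fun x hx => ?_) fun x y hV => ?_
  · obtain ⟨y, hy1, hy2⟩ := (h2 x).mp hx
    exact ⟨y, hy1, (g_V_iff Ov c k x y).mpr ⟨hy1, hy2⟩⟩
  · exact (h2 x).mpr ⟨y, (g_V_iff Ov c k x y).mp hV⟩

theorem sub_InUP {Ov X : Lang} (h : PTime X (fun w : List Bool => Ov w)) {A : Lang}
    (hA : InUP Ov A) : InUP X A := by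
  obtain ⟨c, k, -, h2, h3⟩ := hA
  refine TD.inUP_of (g_V_ptime h c k) (UPoly.tb k) (fun x hx => ?_) (fun x y hV => ?_)
    fun x y y' hy hy' => ?_
  · obtain ⟨y, hy1, hy2⟩ := (h2 x).mp hx
    exact ⟨y, hy1, (g_V_iff Ov c k x y).mpr ⟨hy1, hy2⟩⟩
  · exact (h2 x).mpr ⟨y, (g_V_iff Ov c k x y).mp hV⟩
  · have a := (g_V_iff Ov c k x y).mp hy
    have b := (g_V_iff Ov c k x y').mp hy'
    exact h3 x y y' a.1 b.1 a.2 b.2

theorem g_read {O Λ : Lang} (h : ∀ w, O w = Λ (false :: false :: Λ (false :: true :: w) :: w)) :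
    PTime Λ (fun w : List Bool => O w) := by
  have h1 : PTime Λ (fun w : List Bool => Λ (false :: true :: w)) :=
    PTime.ask (PTime.cons (PTime.const false) (PTime.cons (PTime.const true) PTime.id))
  have h2 : PTime Λ (fun w : List Bool => Λ (false :: false :: Λ (false :: true :: w) :: w)) :=
    PTime.ask (PTime.cons (PTime.const false) (PTime.cons (PTime.const false)
      (PTime.cons h1 PTime.id)))
  exact h2.of_eq fun w => (h w).symm

theorem trans_InP {O Λ : Lang}
    (h : ∀ w, O w = Λ (false :: false :: Λ (false :: true :: w) :: w)) {L : Lang}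
    (hL : InP O L) : InP Λ L := sub_InP (g_read h) hL

theorem trans_InNP {O Λ : Lang}
    (h : ∀ w, O w = Λ (false :: false :: Λ (false :: true :: w) :: w)) {L : Lang}
    (hL : InNP O L) : InNP Λ L := sub_InNP (g_read h) hL

theorem trans_InUP {O Λ : Lang}
    (h : ∀ w, O w = Λ (false :: false :: Λ (false :: true :: w) :: w)) {L : Lang}
    (hL : InUP O L) : InUP Λ L := sub_InUP (g_read h) hL

theorem trans_InFP {O Λ : Lang}
    (h : ∀ w, O w = Λ (false :: false :: Λ (false :: true :: w) :: w)) {f : Str → Str}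
    (hf : InFP O f) : InFP Λ f := sub_InFP (g_read h) hf

end Pool.Agent.AFF
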