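import Pool.Agent.Lib_helper74.CKF.Basic

/-!
# The mask library: definitions for masked languages and linear oracles (MP_675993_lc)

A masked language `emb P O R` contains the virtual oracle `O`: the string `1w` holds the pointer bit
`P w`, the string `0bw` holds `O w` if `b = P w` and the junk bit `R w` otherwise.  `w` is called a
cell, its positions have length `|w| + 2`.  The linear oracle `Lam T A` answers the query `v` with
the parity of `A` on the finite set `T v`.
-/

set_option autoImplicit false

namespace Pool.Agent.AFF

open Pool.Agent.CK

/-- bit strings -/
abbrev Str : Type := List Bool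

/-- `Bool` to `F_2` -/
def b2 (b : Bool) : ZMod 2 := if b = true then 1 else 0

/-! ## Linear oracles and masked languages -/

/-- parity of the language `A` on `D` -/
def par (A : Lang) (D : Finset Str) : ZMod 2 := ∑ w ∈ D, b2 (A w)

/-- The linear oracle: the answer to the query `v` is the parity of `A` on `T v`. -/
def Lam (T : Str → Finset Str) (A : Lang) : Lang := fun v => decide (par A (T v) = 1)

/-- the supports of the queries consist of shorter strings -/
def Short (T : Str → Finset Str) : Prop := ∀ v, ∀ w ∈ T v, w.length < v.length

/-- The language with pointers `P`, virtual oracle `O` and junk `R`. -/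
def emb (P O R : Lang) : Lang
  | true :: w => P w
  | false :: b :: w => if b = P w then O w else R w
  | _ => false

/-- The mixed oracle: content probes `0w`, and parities `1v` of the masked language on the strings
of length `< s` of the support of `v`. -/
def mix (T : Str → Finset Str) (P : Lang) (s : ℕ) (O R : Lang) : Lang
  | [] => false
  | false :: w => O w
  | true :: v => decide (par (emb P O R) ((T v).filter fun w => w.length < s) = 1)

/-! ## Generic pointers -/

/-- characteristic function of the symmetric difference of the supports of the queries in `I` -/
def ch (T : Str → Finset Str) (I : Finset Str) (u : Str) : ZMod 2 :=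
  ∑ v ∈ I, if u ∈ T v then 1 else 0

/-- Generic pointers: a combination of queries without junk positions of length `m + 2` has few
real positions of this length. -/
def GenP (T : Str → Finset Str) (P : Lang) : Prop :=
  ∀ (m ℓ : ℕ) (I : Finset Str), (∀ v ∈ I, v.length ≤ ℓ) →
    (∀ w : Str, w.length = m → ch T I (false :: (!P w) :: w) = 0) →
    {w : Str | w.length = m ∧ ch T I (false :: P w :: w) ≠ 0}.ncard ≤ 3 * I.card * (ℓ + 2)

/-! ## Cells -/

/-- the cell `w` has its positions in `[s, L)` -/
def inC (s L : ℕ) (w : Str) : Prop := s ≤ w.length + 2 ∧ w.length + 2 < L

instance instDecInC (s L : ℕ) (w : Str) : Decidable (inC s L w) :=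
  inferInstanceAs (Decidable (_ ∧ _))

/-- the type of the cells with positions in `[s, L)` -/
abbrev Cell (s L : ℕ) : Type := {w : Str // inC s L w}

theorem finite_cells (s L : ℕ) : {w : Str | inC s L w}.Finite :=
  (List.finite_length_le Bool L).subset fun w hw => by
    have h := hw.2
    show w.length ≤ L
    omega

noncomputable instance instFintypeCell (s L : ℕ) : Fintype (Cell s L) :=
  @Fintype.ofFinite _ (finite_cells s L).to_subtype

/-- the junk part on `[s, L)` of a query -/
def Jv (T : Str → Finset Str) (P : Lang) (s L : ℕ) (v : Str) (c : Cell s L) : ZMod 2 :=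
  if false :: (!P c.1) :: c.1 ∈ T v then 1 else 0

/-- the content part on `[s, L)` of a query -/
def Cv (T : Str → Finset Str) (P : Lang) (s L : ℕ) (v : Str) (c : Cell s L) : ZMod 2 :=
  if false :: P c.1 :: c.1 ∈ T v then 1 else 0

/-- the pointer bits, as a language -/
def ptrL (P : Lang) : Lang
  | true :: w => P w
  | _ => false

/-- the contribution of the pointers of length in `[s, L)` -/
def cst (T : Str → Finset Str) (P : Lang) (s L : ℕ) (v : Str) : ZMod 2 :=
  par (ptrL P) ((T v).filter fun w => s ≤ w.length ∧ w.length < L)

/-- the junk `R` with the cells of `[s, L)` replaced by `ω` -/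
def ovr (s L : ℕ) (R : Lang) (ω : Cell s L → Bool) : Lang := fun w =>
  if h : inC s L w then ω ⟨w, h⟩ else R w

/-- positions of content probes -/
def lp {α : Type} (pos : Str → Option α) : Str → Option α
  | false :: w => pos w
  | _ => none

/-! ## Renaming of queries -/

/-- prefix all queries with `1` -/
def ren {β : Type} : DT β → DT β
  | DT.leaf b => DT.leaf b
  | DT.node w n0 n1 => DT.node (true :: w) (ren n0) (ren n1)

/-- in a tree over a join: prefix the questions to the first oracle with `1` -/
def ren2 {β : Type} : DT β → DT β
  | DT.leaf b => DT.leaf b
  | DT.node [] n0 n1 => DT.node [] (ren2 n0) (ren2 n1)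
  | DT.node (false :: w) n0 n1 => DT.node (false :: true :: w) (ren2 n0) (ren2 n1)
  | DT.node (true :: w) n0 n1 => DT.node (true :: w) (ren2 n0) (ren2 n1)

/-! ## Linear schemes -/

/-- the language (oracle) `O` is closed under the linear scheme `ext`: its value at `1u` is the
parity of the number of elements of `O` in `ext u` -/
def Closed (ext : Str → Finset Str) (O : Lang) : Prop :=
  ∀ u, O (true :: u) = decide (Odd ((ext u).filter fun x => O x = true).card)

/-- The value at `α` of the multilinear extension of `f : {0,1}^n → {0,1}` over a field of
characteristic 2. -/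
def mlx {F : Type} [Field F] {n : ℕ} (f : (Fin n → Bool) → Bool) (α : Fin n → F) : F :=
  ∑ b : Fin n → Bool, if f b = true then ∏ j, (if b j = true then α j else 1 + α j) else 0

end Pool.Agent.AFF
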