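import Pool.Agent.Lib_helper57.AFF.All
import Pool.Agent.Lib_helper20.MSK.Defs

/-!
# The concrete linear scheme of a masked language (MP_675993_lc)
-/

set_option autoImplicit false

namespace Pool.Agent.AFF

open Pool.Agent.CK

theorem Cv_len {T : Str → Finset Str} (hT : Short T) (P : Lang) {s L : ℕ} {v : Str}
    {c : Cell s L} (h : Cv T P s L v c ≠ 0) : c.1.length + 2 < v.length := by
  unfold Cv at h
  split_ifs at h with h1
  · have := hT v _ h1
    simpa using this
  · exact absurd rfl h

/-- The linear scheme on the cells with positions of length in `[s, L)`. -/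
def ls {T : Str → Finset Str} (hT : Short T) (P : Lang) (s L : ℕ) : MSK.LS (Cell s L) where
  cell c := c.1
  inj := Subtype.val_injective
  J := Jv T P s L
  C := Cv T P s L
  cst := cst T P s L
  len v c h := by
    have := Cv_len hT P h
    omega

/-- The upper oracle of the scheme `ls hT P s L` over the mixed oracle for `s` is the mixed oracle
for `L`, the pad being the junk in the cells. -/
theorem ans_ls {T : Str → Finset Str} (hT : Short T) (P O R : Lang) {s L : ℕ} (hsL : s ≤ L)
    (om : Cell s L → Bool) :
    (ls hT P s L).ans (mix T P s O R) om = mix T P L O (ovr s L R om) := by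
  funext q
  match q with
  | [] => rfl
  | false :: w => rfl
  | true :: v =>
    have h := mix_split T P O R hsL om v
    have hb : ∀ a b : Bool, b2 a = b2 b → a = b := by decide
    apply hb
    rw [h]
    have hx : ∀ (a : Bool) (x : ZMod 2), b2 (xor a (MSK.tb x)) = b2 a + x := by decide
    exact hx _ _

theorem gen_ls {T : Str → Finset Str} (hT : Short T) {P : Lang} (hP : GenP T P) (s L ℓ : ℕ) :
    (ls hT P s L).Gen ℓ (3 * (ℓ + 2) ^ 2) := by
  intro I hI hJ
  exact weight hT hP s L ℓ I (fun v hv => (hI v hv).le) hJ

end Pool.Agent.AFF
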