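import Pool.Agent.Lib_helper57.AFF.Defs

/-!
# AFF, block A: generic pointers
-/

set_option autoImplicit false

namespace Pool.Agent.AFF

open Pool.Agent.CK

/-- the strings of length `m` -/
abbrev a_V (m : ℕ) : Type := {w : Str // w.length = m}

local instance a_instFintype (m : ℕ) : Fintype (a_V m) := inferInstanceAs (Fintype (List.Vector Bool m))

theorem a_card (m : ℕ) : Fintype.card (a_V m) = 2 ^ m := by
  have h := card_vector (α := Bool) m
  rw [Fintype.card_bool] at h
  exact h

/-- the weight of a query -/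
noncomputable def a_x (v : Str) : ℝ := (1 / 8 : ℝ) ^ (v.length + 2)

theorem a_x_pos (v : Str) : 0 < a_x v := by unfold a_x; positivity

/-- the strings of length `< N` -/
noncomputable def a_S (N : ℕ) : Finset Str :=
  (Finset.range N).biUnion fun l => (Finset.univ : Finset (a_V l)).image Subtype.val

theorem a_mem_S {N : ℕ} {v : Str} : v ∈ a_S N ↔ v.length < N := by
  unfold a_S
  rw [Finset.mem_biUnion]
  constructor
  · rintro ⟨l, hl, hv⟩
    rw [Finset.mem_image] at hv
    obtain ⟨u, -, rfl⟩ := hv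
    rw [u.2]
    exact Finset.mem_range.1 hl
  · intro h
    refine ⟨v.length, Finset.mem_range.2 h, ?_⟩
    rw [Finset.mem_image]
    exact ⟨⟨v, rfl⟩, Finset.mem_univ _, rfl⟩

theorem a_sum_x (N : ℕ) : ∑ v ∈ a_S N, a_x v ≤ 1 / 32 := by
  unfold a_S
  rw [Finset.sum_biUnion]
  · have h1 : ∀ l ∈ Finset.range N,
        ∑ v ∈ (Finset.univ : Finset (a_V l)).image Subtype.val, a_x v ≤
          (1 / 64 : ℝ) * (1 / 4 : ℝ) ^ l := by
      intro l _
      have h2 : ∀ v ∈ (Finset.univ : Finset (a_V l)).image Subtype.val,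
          a_x v ≤ (1 / 8 : ℝ) ^ (l + 2) := by
        intro v hv
        rw [Finset.mem_image] at hv
        obtain ⟨u, -, rfl⟩ := hv
        unfold a_x
        rw [u.2]
      refine (Finset.sum_le_card_nsmul _ _ _ h2).trans ?_
      have h3 : ((Finset.univ : Finset (a_V l)).image Subtype.val).card ≤ 2 ^ l := by
        refine Finset.card_image_le.trans ?_
        rw [Finset.card_univ, a_card]
      rw [nsmul_eq_mul]
      calc (((Finset.univ : Finset (a_V l)).image Subtype.val).card : ℝ) *
            (1 / 8 : ℝ) ^ (l + 2) ≤ (2 : ℝ) ^ l * (1 / 8 : ℝ) ^ (l + 2) := by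
            apply mul_le_mul_of_nonneg_right _ (by positivity)
            exact_mod_cast h3
        _ = (1 / 64 : ℝ) * (1 / 4 : ℝ) ^ l := by
            rw [pow_add]
            have : (2 : ℝ) ^ l * ((1 / 8 : ℝ) ^ l * (1 / 8 : ℝ) ^ 2) =
                ((2 : ℝ) * (1 / 8)) ^ l * (1 / 8 : ℝ) ^ 2 := by rw [mul_pow]; ring
            rw [this]
            norm_num
            ring
    refine (Finset.sum_le_sum h1).trans ?_
    rw [← Finset.mul_sum]
    have h4 : ∑ l ∈ Finset.range N, (1 / 4 : ℝ) ^ l ≤ 2 := by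
      have h5 := geom_sum_eq (x := (1 / 4 : ℝ)) (by norm_num) N
      rw [h5]
      have h6 : (0 : ℝ) < (1 / 4 : ℝ) ^ N := by positivity
      rw [div_le_iff_of_neg (by norm_num)]
      linarith
    linarith
  · intro l _ l' _ hne
    rw [Function.onFun, Finset.disjoint_left]
    intro v hv hv'
    rw [Finset.mem_image] at hv hv'
    obtain ⟨u, -, rfl⟩ := hv
    obtain ⟨u', -, h⟩ := hv'
    apply hne
    rw [← u.2, ← u'.2, h]

theorem a_prod_x (N : ℕ) : ∏ v ∈ a_S N, (1 + a_x v) < 2 := by
  have h1 : ∏ v ∈ a_S N, (1 + a_x v) ≤ Real.exp (∑ v ∈ a_S N, a_x v) := by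
    rw [Real.exp_sum]
    refine Finset.prod_le_prod (fun v _ => by have := a_x_pos v; positivity) fun v _ => ?_
    have := Real.add_one_le_exp (a_x v)
    linarith
  refine h1.trans_lt ((Real.exp_le_exp.2 (a_sum_x N)).trans_lt ?_)
  have h2 : Real.exp (1 / 32) ^ 32 < 2 ^ 32 := by
    rw [← Real.exp_nat_mul]
    have h3 := Real.exp_one_lt_d9
    norm_num at h3 ⊢
    linarith
  exact lt_of_pow_lt_pow_left₀ 32 (by norm_num) h2

section

variable (T : Str → Finset Str) (m : ℕ)

/-- the functions which are bad for `I` -/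
def a_bad (I : Finset Str) : Finset (a_V m → Bool) :=
  Finset.univ.filter fun P =>
    (∀ w : a_V m, ch T I (false :: (!P w) :: w.1) = 0) ∧
      3 * ∑ v ∈ I, (v.length + 2) <
        (Finset.univ.filter fun w : a_V m => ch T I (false :: P w :: w.1) ≠ 0).card

theorem a_card_bad (I : Finset Str) :
    ((a_bad T m I).card : ℝ) ≤ 2 ^ (2 ^ m) * ((1 / 2) * ∏ v ∈ I, a_x v) := by
  classical
  have hx : ∏ v ∈ I, a_x v = (1 / 2 : ℝ) ^ (3 * ∑ v ∈ I, (v.length + 2)) := by
    unfold a_x
    rw [Finset.prod_pow_eq_pow_sum, pow_mul]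
    norm_num
  rcases (a_bad T m I).eq_empty_or_nonempty with h0 | ⟨P0, hP0⟩
  · rw [h0, Finset.card_empty, Nat.cast_zero]
    have : 0 < ∏ v ∈ I, a_x v := Finset.prod_pos fun v _ => a_x_pos v
    positivity
  set U : Finset (a_V m) :=
    Finset.univ.filter fun w : a_V m => ch T I (false :: P0 w :: w.1) ≠ 0 with hU
  unfold a_bad at hP0
  rw [Finset.mem_filter] at hP0
  obtain ⟨-, hP1, hP2⟩ := hP0
  rw [← hU] at hP2
  have hsub : a_bad T m I ⊆
      Fintype.piFinset fun w : a_V m => if w ∈ U then {P0 w} else Finset.univ := by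
    intro P hP
    rw [Fintype.mem_piFinset]
    intro w
    split_ifs with hw
    · rw [Finset.mem_singleton]
      unfold a_bad at hP
      rw [Finset.mem_filter] at hP
      by_contra hne
      have h1 : (!P w) = P0 w := by
        cases h2 : P w <;> cases h3 : P0 w <;> simp_all
      have h4 := hP.2.1 w
      rw [h1] at h4
      rw [hU, Finset.mem_filter] at hw
      exact hw.2 h4
    · exact Finset.mem_univ _
  have hcard : (a_bad T m I).card ≤ 2 ^ (2 ^ m - U.card) := by
    refine (Finset.card_le_card hsub).trans ?_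
    rw [Fintype.card_piFinset]
    have h1 : ∀ w : a_V m,
        (if w ∈ U then ({P0 w} : Finset Bool) else Finset.univ).card =
          if w ∈ U then 1 else 2 := by
      intro w
      split_ifs
      · exact Finset.card_singleton _
      · simp
    rw [Finset.prod_congr rfl fun w _ => h1 w, Finset.prod_ite, Finset.prod_const_one, one_mul,
      Finset.prod_const]
    have h2 : (Finset.univ.filter fun w : a_V m => w ∉ U).card = 2 ^ m - U.card := by
      rw [Finset.filter_not, Finset.filter_mem_eq_inter, Finset.univ_inter,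
        Finset.card_univ_sdiff, a_card]
    rw [h2]
  have hUle : U.card ≤ 2 ^ m := by
    have := Finset.card_le_univ U
    rwa [a_card] at this
  have h3 : ((a_bad T m I).card : ℝ) ≤ 2 ^ (2 ^ m) * (1 / 2 : ℝ) ^ U.card := by
    calc ((a_bad T m I).card : ℝ) ≤ ((2 ^ (2 ^ m - U.card) : ℕ) : ℝ) := by exact_mod_cast hcard
      _ = 2 ^ (2 ^ m) * (1 / 2 : ℝ) ^ U.card := by
          push_cast
          rw [pow_sub₀ _ (by norm_num) hUle]
          simp
  refine h3.trans ?_
  apply mul_le_mul_of_nonneg_left _ (by positivity)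
  rw [hx, mul_comm, ← pow_succ]
  exact pow_le_pow_of_le_one (by norm_num) (by norm_num) hP2

theorem a_key : ∃ P : a_V m → Bool, ∀ I : Finset Str,
    (∀ w : a_V m, ch T I (false :: (!P w) :: w.1) = 0) →
      (Finset.univ.filter fun w : a_V m => ch T I (false :: P w :: w.1) ≠ 0).card ≤
        3 * ∑ v ∈ I, (v.length + 2) := by
  classical
  by_contra hcon
  push Not at hcon
  have hcov : (Finset.univ : Finset (a_V m → Bool)) ⊆
      ((a_S (2 ^ m)).powerset.erase ∅).biUnion fun I => a_bad T m I := by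
    intro P _
    obtain ⟨I, h1, h2⟩ := hcon P
    rw [Finset.mem_biUnion]
    refine ⟨I, ?_, ?_⟩
    · rw [Finset.mem_erase, Finset.mem_powerset]
      constructor
      · rintro rfl
        simp [ch] at h2
      · intro v hv
        rw [a_mem_S]
        have h3 := Finset.card_le_univ (Finset.univ.filter fun w : a_V m =>
          ch T I (false :: P w :: w.1) ≠ 0)
        rw [a_card] at h3
        have h4 : v.length + 2 ≤ ∑ v ∈ I, (v.length + 2) :=
          Finset.single_le_sum (f := fun v : Str => v.length + 2) (fun _ _ => Nat.zero_le _) hv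
        omega
    · unfold a_bad
      rw [Finset.mem_filter]
      exact ⟨Finset.mem_univ _, h1, h2⟩
  have h1 : ((2 : ℝ) ^ (2 ^ m)) ≤
      ∑ I ∈ (a_S (2 ^ m)).powerset.erase ∅, ((a_bad T m I).card : ℝ) := by
    have h2 := (Finset.card_le_card hcov).trans Finset.card_biUnion_le
    rw [Finset.card_univ, Fintype.card_fun, a_card, Fintype.card_bool] at h2
    exact_mod_cast h2
  have h2 : ∑ I ∈ (a_S (2 ^ m)).powerset.erase ∅, ((a_bad T m I).card : ℝ) ≤
      2 ^ (2 ^ m) * ((1 / 2) * (∏ v ∈ a_S (2 ^ m), (1 + a_x v) - 1)) := by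
    refine (Finset.sum_le_sum fun I _ => a_card_bad T m I).trans (le_of_eq ?_)
    rw [Finset.prod_one_add, ← Finset.sum_erase_add _ _ (Finset.empty_mem_powerset _),
      Finset.prod_empty, add_sub_cancel_right, ← Finset.mul_sum, ← Finset.mul_sum]
  have h3 := a_prod_x (2 ^ m)
  have h4 : (0 : ℝ) < 2 ^ (2 ^ m) := by positivity
  nlinarith

end

theorem exists_genP (T : Str → Finset Str) : ∃ P : Lang, GenP T P := by
  choose P hP using fun m => a_key T m
  refine ⟨fun w => P w.length ⟨w, rfl⟩, ?_⟩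
  intro m l I hI hJ
  have hPw : ∀ w : a_V m, P w.1.length ⟨w.1, rfl⟩ = P m w := by
    rintro ⟨w, rfl⟩
    rfl
  have h1 := hP m I (fun w => by
    have h0 : ch T I (false :: (!(P w.1.length ⟨w.1, rfl⟩)) :: w.1) = 0 := hJ w.1 w.2
    rwa [hPw w] at h0)
  have h2 : {w : Str | w.length = m ∧ ch T I (false :: P w.length ⟨w, rfl⟩ :: w) ≠ 0} =
      Subtype.val '' ((Finset.univ.filter fun w : a_V m =>
        ch T I (false :: P m w :: w.1) ≠ 0 : Finset (a_V m)) :
          Set (a_V m)) := by
    ext w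
    constructor
    · rintro ⟨rfl, hw⟩
      refine ⟨⟨w, rfl⟩, ?_, rfl⟩
      rw [Finset.mem_coe, Finset.mem_filter]
      exact ⟨Finset.mem_univ _, hw⟩
    · rintro ⟨u, hu, rfl⟩
      rw [Finset.mem_coe, Finset.mem_filter] at hu
      refine ⟨u.2, ?_⟩
      rw [hPw u]
      exact hu.2
  show {w : Str | w.length = m ∧ ch T I (false :: P w.length ⟨w, rfl⟩ :: w) ≠ 0}.ncard ≤ _
  rw [h2]
  refine (Set.ncard_image_le (Finset.finite_toSet _)).trans ?_
  rw [Set.ncard_coe_finset]
  refine h1.trans ?_
  rw [mul_assoc]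
  refine Nat.mul_le_mul_left 3 ?_
  have h3 := Finset.sum_le_card_nsmul I (fun v => v.length + 2) (l + 2)
    fun v hv => Nat.add_le_add_right (hI v hv) 2
  simpa using h3


end Pool.Agent.AFF
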