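import Pool.Agent.Lib_helper57.AFF.Defs

/-!
# Block C1: splitting a mixed oracle
-/

set_option autoImplicit false

namespace Pool.Agent.AFF

open Pool.Agent.CK

theorem c1_b2_decide (x : ZMod 2) : b2 (decide (x = 1)) = x := by
  revert x
  decide

theorem c1_emb_lt (P O R : Lang) {s L : ℕ} (ω : Cell s L → Bool) (w : Str) (hw : w.length < s) :
    emb P O (ovr s L R ω) w = emb P O R w := by
  match w with
  | [] => rfl
  | true :: w => rfl
  | [false] => rfl
  | false :: b :: w =>
    have h : ¬ inC s L w := by
      intro h
      have h1 := h.1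
      simp only [List.length_cons] at hw
      omega
    have h2 : ovr s L R ω w = R w := by
      simp only [ovr]
      exact dif_neg h
    show (if b = P w then O w else ovr s L R ω w) = (if b = P w then O w else R w)
    rw [h2]

theorem c1_point (P O R : Lang) {s L : ℕ} (ω : Cell s L → Bool) (w : Str) (hs : s ≤ w.length)
    (hL : w.length < L) :
    b2 (emb P O (ovr s L R ω) w) = b2 (ptrL P w) +
      ((∑ c : Cell s L, if w = false :: P c.1 :: c.1 then b2 (O c.1) else 0) +
        ∑ c : Cell s L, if w = false :: (!P c.1) :: c.1 then b2 (ω c) else 0) := by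
  match w with
  | [] =>
    simp [emb, ptrL, b2]
  | true :: w =>
    show b2 (P w) = b2 (P w) + _
    simp
  | [false] =>
    simp [emb, ptrL, b2]
  | false :: b :: w =>
    simp only [List.length_cons] at hs hL
    have h : inC s L w := ⟨by omega, by omega⟩
    have h0 : b2 (ptrL P (false :: b :: w)) = 0 := by simp [ptrL, b2]
    have hemb : emb P O (ovr s L R ω) (false :: b :: w) = if b = P w then O w else ω ⟨w, h⟩ := by
      show (if b = P w then O w else ovr s L R ω w) = _
      have h2 : ovr s L R ω w = ω ⟨w, h⟩ := by
        simp only [ovr]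
        exact dif_pos h
      rw [h2]
    have hne : ∀ c : Cell s L, c ≠ ⟨w, h⟩ → w ≠ c.1 := by
      intro c hc hw
      exact hc (Subtype.ext hw.symm)
    have hA : (∑ c : Cell s L, if false :: b :: w = false :: P c.1 :: c.1 then b2 (O c.1) else 0) =
        if b = P w then b2 (O w) else 0 := by
      rw [Finset.sum_eq_single (⟨w, h⟩ : Cell s L)]
      · by_cases hb : b = P w
        · simp [hb]
        · simp
      · intro c _ hc
        have h3 := hne c hc
        rw [if_neg]
        intro h4
        simp only [List.cons.injEq] at h4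
        exact h3 h4.2.2
      · intro h5
        exact absurd (Finset.mem_univ _) h5
    have hB : (∑ c : Cell s L, if false :: b :: w = false :: (!P c.1) :: c.1 then b2 (ω c)
        else 0) = if b = P w then 0 else b2 (ω ⟨w, h⟩) := by
      rw [Finset.sum_eq_single (⟨w, h⟩ : Cell s L)]
      · cases P w <;> cases b <;> simp
      · intro c _ hc
        have h3 := hne c hc
        rw [if_neg]
        intro h4
        simp only [List.cons.injEq] at h4
        exact h3 h4.2.2
      · intro h5
        exact absurd (Finset.mem_univ _) h5
    rw [hemb, h0, hA, hB]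
    by_cases hb : b = P w
    · simp [hb]
    · simp [hb]

theorem mix_split (T : Str → Finset Str) (P O R : Lang) {s L : ℕ} (hsL : s ≤ L)
    (ω : Cell s L → Bool) (v : Str) :
    b2 (mix T P L O (ovr s L R ω) (true :: v)) = b2 (mix T P s O R (true :: v)) +
      (cst T P s L v + ∑ c, Cv T P s L v c * b2 (O c.1) + ∑ c, Jv T P s L v c * b2 (ω c)) := by
  have hl : b2 (mix T P L O (ovr s L R ω) (true :: v)) =
      par (emb P O (ovr s L R ω)) ((T v).filter fun w => w.length < L) := c1_b2_decide _
  have hr : b2 (mix T P s O R (true :: v)) =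
      par (emb P O R) ((T v).filter fun w => w.length < s) := c1_b2_decide _
  rw [hl, hr]
  have hsplit : ((T v).filter fun w => w.length < L) =
      ((T v).filter fun w => w.length < s) ∪
        ((T v).filter fun w => s ≤ w.length ∧ w.length < L) := by
    ext w
    simp only [Finset.mem_filter, Finset.mem_union]
    constructor
    · rintro ⟨h1, h2⟩
      by_cases h3 : w.length < s
      · exact Or.inl ⟨h1, h3⟩
      · exact Or.inr ⟨h1, by omega, h2⟩
    · rintro (⟨h1, h2⟩ | ⟨h1, h2⟩)
      · exact ⟨h1, by omega⟩
      · exact ⟨h1, h2.2⟩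
  have hdisj : Disjoint ((T v).filter fun w => w.length < s)
      ((T v).filter fun w => s ≤ w.length ∧ w.length < L) := by
    rw [Finset.disjoint_left]
    intro w h1 h2
    simp only [Finset.mem_filter] at h1 h2
    have h3 := h1.2
    have h4 := h2.2.1
    omega
  have h1 : par (emb P O (ovr s L R ω)) ((T v).filter fun w => w.length < L) =
      par (emb P O (ovr s L R ω)) ((T v).filter fun w => w.length < s) +
        par (emb P O (ovr s L R ω)) ((T v).filter fun w => s ≤ w.length ∧ w.length < L) := by
    rw [hsplit]
    exact Finset.sum_union hdisj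
  have h2 : par (emb P O (ovr s L R ω)) ((T v).filter fun w => w.length < s) =
      par (emb P O R) ((T v).filter fun w => w.length < s) := by
    refine Finset.sum_congr rfl fun w hw => ?_
    rw [c1_emb_lt P O R ω w (Finset.mem_filter.1 hw).2]
  have hin : ∀ (b : Str → Bool) (c : Cell s L),
      (false :: b c.1 :: c.1 ∈ (T v).filter fun w => s ≤ w.length ∧ w.length < L) ↔
        false :: b c.1 :: c.1 ∈ T v := by
    intro b c
    simp only [Finset.mem_filter, List.length_cons]
    constructor
    · exact fun h => h.1
    · intro h
      have h3 := c.2.1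
      have h4 := c.2.2
      exact ⟨h, by omega, by omega⟩
  have h3 : par (emb P O (ovr s L R ω)) ((T v).filter fun w => s ≤ w.length ∧ w.length < L) =
      cst T P s L v + ∑ c, Cv T P s L v c * b2 (O c.1) + ∑ c, Jv T P s L v c * b2 (ω c) := by
    have h4 : par (emb P O (ovr s L R ω)) ((T v).filter fun w => s ≤ w.length ∧ w.length < L) =
        ∑ w ∈ (T v).filter (fun w => s ≤ w.length ∧ w.length < L), (b2 (ptrL P w) +
      ((∑ c : Cell s L, if w = false :: P c.1 :: c.1 then b2 (O c.1) else 0) +
        ∑ c : Cell s L, if w = false :: (!P c.1) :: c.1 then b2 (ω c) else 0)) := by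
      refine Finset.sum_congr rfl fun w hw => ?_
      have h5 := (Finset.mem_filter.1 hw).2
      exact c1_point P O R ω w h5.1 h5.2
    rw [h4, Finset.sum_add_distrib, Finset.sum_add_distrib, Finset.sum_comm,
      Finset.sum_comm (s := (T v).filter fun w => s ≤ w.length ∧ w.length < L)
        (f := fun w (c : Cell s L) => if w = false :: (!P c.1) :: c.1 then b2 (ω c) else 0),
      ← add_assoc]
    congr 1
    · congr 1
      refine Finset.sum_congr rfl fun c _ => ?_
      rw [Finset.sum_ite_eq' ((T v).filter fun w => s ≤ w.length ∧ w.length < L)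
        (false :: P c.1 :: c.1) (fun _ => b2 (O c.1))]
      by_cases h6 : false :: P c.1 :: c.1 ∈ T v
      · rw [if_pos ((hin P c).2 h6)]
        simp only [Cv]
        rw [if_pos h6, one_mul]
      · rw [if_neg (fun h7 => h6 ((hin P c).1 h7))]
        simp only [Cv]
        rw [if_neg h6, zero_mul]
    · refine Finset.sum_congr rfl fun c _ => ?_
      rw [Finset.sum_ite_eq' ((T v).filter fun w => s ≤ w.length ∧ w.length < L)
        (false :: (!P c.1) :: c.1) (fun _ => b2 (ω c))]
      by_cases h6 : false :: (!P c.1) :: c.1 ∈ T v
      · rw [if_pos ((hin (fun w => !P w) c).2 h6)]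
        simp only [Jv]
        rw [if_pos h6, one_mul]
      · rw [if_neg (fun h7 => h6 ((hin (fun w => !P w) c).1 h7))]
        simp only [Jv]
        rw [if_neg h6, zero_mul]
  rw [h1, h2, h3]


end Pool.Agent.AFF
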