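import Pool.Agent.Lib_helper57.AFF.Defs

/-!
# The mask library, block C2: the weight of a combination of queries without junk (MP_675993_lc)
-/

set_option autoImplicit false

namespace Pool.Agent.AFF

open Pool.Agent.CK

theorem c2_Cv (T : Str → Finset Str) (P : Lang) (s L : ℕ) (I : Finset Str) (c : Cell s L) :
    (∑ v ∈ I, Cv T P s L v) c = ch T I (false :: P c.1 :: c.1) := by
  rw [Finset.sum_apply]
  rfl

theorem c2_Jv (T : Str → Finset Str) (P : Lang) (s L : ℕ) (I : Finset Str) (c : Cell s L) :
    (∑ v ∈ I, Jv T P s L v) c = ch T I (false :: (!P c.1) :: c.1) := by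
  rw [Finset.sum_apply]
  rfl

theorem weight {T : Str → Finset Str} {P : Lang} (hT : Short T) (hP : GenP T P) (s L ℓ : ℕ)
    (I : Finset Str) (hI : ∀ v ∈ I, v.length ≤ ℓ) (hJ : ∑ v ∈ I, Jv T P s L v = 0) :
    (Finset.univ.filter fun c => (∑ v ∈ I, Cv T P s L v) c ≠ 0).card ≤
      I.card * (3 * (ℓ + 2) ^ 2) := by
  classical
  set F : Finset (Cell s L) := Finset.univ.filter fun c => (∑ v ∈ I, Cv T P s L v) c ≠ 0 with hF
  -- the cells in `F` are shorter than `ℓ`
  have hlen : ∀ c ∈ F, c.1.length ∈ Finset.range ℓ := by
    intro c hc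
    have h1 : ch T I (false :: P c.1 :: c.1) ≠ 0 := by
      rw [← c2_Cv]
      exact (Finset.mem_filter.mp hc).2
    unfold ch at h1
    obtain ⟨v, hv, hv1⟩ := Finset.exists_ne_zero_of_sum_ne_zero h1
    have h2 : false :: P c.1 :: c.1 ∈ T v := by
      by_contra h3
      exact hv1 (if_neg h3)
    have h3 := hT v _ h2
    have h4 := hI v hv
    simp only [List.length_cons] at h3
    rw [Finset.mem_range]
    omega
  -- the fibers
  have hfib : ∀ m ∈ Finset.range ℓ, (F.filter fun c => c.1.length = m).card ≤
      3 * I.card * (ℓ + 2) := by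
    intro m _
    rcases (F.filter fun c => c.1.length = m).eq_empty_or_nonempty with h0 | ⟨c, hc⟩
    · rw [h0, Finset.card_empty]
      exact Nat.zero_le _
    · obtain ⟨hc1, hc2⟩ := Finset.mem_filter.mp hc
      have hcell : ∀ w : Str, w.length = m → inC s L w := by
        intro w hw
        have := c.2
        unfold inC at this ⊢
        rw [hc2] at this
        rw [hw]
        exact this
      have h1 := hP m ℓ I hI (by
        intro w hw
        have h2 := congrFun hJ ⟨w, hcell w hw⟩
        rw [c2_Jv] at h2
        exact h2)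
      refine le_trans ?_ h1
      have h2 : ((F.filter fun c => c.1.length = m).image Subtype.val).card =
          (F.filter fun c => c.1.length = m).card :=
        Finset.card_image_of_injective _ Subtype.val_injective
      rw [← h2, ← Set.ncard_coe_finset]
      refine Set.ncard_le_ncard ?_ ?_
      · intro w hw
        obtain ⟨c', hc', rfl⟩ := Finset.mem_image.mp (Finset.mem_coe.mp hw)
        obtain ⟨h3, h4⟩ := Finset.mem_filter.mp hc'
        refine ⟨h4, ?_⟩
        rw [← c2_Cv]
        exact (Finset.mem_filter.mp h3).2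
      · refine (List.finite_length_eq Bool m).subset ?_
        intro w hw
        exact hw.1
  rw [Finset.card_eq_sum_card_fiberwise hlen]
  refine (Finset.sum_le_sum hfib).trans ?_
  rw [Finset.sum_const, Finset.card_range, smul_eq_mul]
  nlinarith [Nat.zero_le (I.card * ℓ), Nat.zero_le (I.card)]

end Pool.Agent.AFF
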