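import Pool.Agent.Lib_helper57.AFF.Defs

set_option autoImplicit false

namespace Pool.Agent.AFF

open Pool.Agent.CK

/-- values of the masked language at strings of length `< s` -/
theorem c3_emb {P O O' R R' : Lang} {s : ℕ}
    (hO : ∀ w : Str, w.length + 2 < s → O w = O' w)
    (hR : ∀ w : Str, w.length + 2 < s → R w = R' w) (x : Str) (hx : x.length < s) :
    emb P O R x = emb P O' R' x := by
  match x, hx with
  | [], _ => rfl
  | true :: w, _ => rfl
  | [false], _ => rfl
  | false :: b :: w, hx =>
    have hw : w.length + 2 < s := by
      simpa using hx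
    show (if b = P w then O w else R w) = if b = P w then O' w else R' w
    rw [hO w hw, hR w hw]

theorem c3_par {A B : Lang} {D : Finset Str} (h : ∀ w ∈ D, A w = B w) : par A D = par B D := by
  unfold par
  exact Finset.sum_congr rfl fun w hw => by rw [h w hw]

theorem mix_full {T : Str → Finset Str} (hT : Short T) (P O R : Lang) {s : ℕ} {v : Str}
    (hv : v.length ≤ s) : mix T P s O R (true :: v) = Lam T (emb P O R) v := by
  have h : (T v).filter (fun w => w.length < s) = T v :=
    Finset.filter_true_of_mem fun w hw => (hT v w hw).trans_le hv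
  show decide (par (emb P O R) ((T v).filter fun w => w.length < s) = 1) =
    decide (par (emb P O R) (T v) = 1)
  rw [h]

theorem mix_congr (T : Str → Finset Str) (P : Lang) {O O' R R' : Lang} {s : ℕ}
    (hO : ∀ w : Str, w.length + 2 < s → O w = O' w)
    (hR : ∀ w : Str, w.length + 2 < s → R w = R' w) (v : Str) :
    mix T P s O R (true :: v) = mix T P s O' R' (true :: v) := by
  show decide (par (emb P O R) ((T v).filter fun w => w.length < s) = 1) =
    decide (par (emb P O' R') ((T v).filter fun w => w.length < s) = 1)
  rw [c3_par fun w hw => c3_emb hO hR w (Finset.mem_filter.1 hw).2]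

theorem Lam_congr {T : Str → Finset Str} (hT : Short T) (P : Lang) {O O' R R' : Lang} {s : ℕ}
    (hO : ∀ w : Str, w.length + 2 < s → O w = O' w)
    (hR : ∀ w : Str, w.length + 2 < s → R w = R' w) {v : Str} (hv : v.length ≤ s) :
    Lam T (emb P O R) v = Lam T (emb P O' R') v := by
  show decide (par (emb P O R) (T v) = 1) = decide (par (emb P O' R') (T v) = 1)
  rw [c3_par fun w hw => c3_emb hO hR w ((hT v w hw).trans_le hv)]

theorem mix_patch (T : Str → Finset Str) (P O R : Lang) {s : ℕ} {Z Q ι : Type}
    (pos : Str → Option (Z × ι)) (rd : Q → ι → Bool) (Tb : Z → Q)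
    (hpos : ∀ w p, pos w = some p → s ≤ w.length + 2) :
    mix T P s (patch pos rd O Tb) R = patch (lp pos) rd (mix T P s O R) Tb := by
  funext x
  match x with
  | [] => rfl
  | false :: w =>
    show patch pos rd O Tb w = _
    unfold patch
    rfl
  | true :: v =>
    have h1 : mix T P s (patch pos rd O Tb) R (true :: v) = mix T P s O R (true :: v) := by
      refine mix_congr T P (fun w hw => ?_) (fun _ _ => rfl) v
      have h2 : pos w = none := by
        cases h : pos w with
        | none => rfl
        | some p =>
          have := hpos w p h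
          omega
      unfold patch
      rw [h2]
    rw [h1]
    rfl

theorem Lam_read {T : Str → Finset Str} (hT1 : ∀ w, T (false :: w) = {w}) (P O R : Lang)
    (w : Str) :
    O w = Lam T (emb P O R) (false :: false :: Lam T (emb P O R) (false :: true :: w) :: w) := by
  have h0 : ∀ x : Str, Lam T (emb P O R) (false :: x) = emb P O R x := by
    intro x
    unfold Lam par
    rw [hT1, Finset.sum_singleton]
    unfold b2
    cases emb P O R x <;> simp
  rw [h0, h0]
  show O w = if P w = P w then O w else R w
  rw [if_pos rfl]

end Pool.Agent.AFF
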