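import Pool.Agent.Lib_helper57.AFF.Defs

/-!
# Block D: renaming of queries
-/

set_option autoImplicit false

namespace Pool.Agent.AFF

open Pool.Agent.CK

theorem eval_ren {β : Type} (O : Lang) (t : DT β) :
    (ren t).eval O = t.eval fun w => O (true :: w) := by
  induction t with
  | leaf b => rfl
  | node w n0 n1 ih0 ih1 => simp only [ren, DT.eval, ih0, ih1]

theorem depth_ren {β : Type} (t : DT β) : (ren t).depth = t.depth := by
  induction t with
  | leaf b => rfl
  | node w n0 n1 ih0 ih1 => simp only [ren, DT.depth, ih0, ih1]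

theorem allQ_ren {β : Type} (P : Str → Prop) (t : DT β) (h : t.AllQ fun w => P (true :: w)) :
    (ren t).AllQ P := by
  induction t with
  | leaf b => exact h
  | node w n0 n1 ih0 ih1 =>
    simp only [ren, DT.AllQ] at h ⊢
    exact ⟨h.1, ih0 h.2.1, ih1 h.2.2⟩

theorem eval_ren2 {β : Type} (O C : Lang) (t : DT β) :
    (ren2 t).eval (join O C) = t.eval (join (fun w => O (true :: w)) C) := by
  induction t with
  | leaf b => rfl
  | node w n0 n1 ih0 ih1 =>
    match w with
    | [] => simp only [ren2, DT.eval, ih0, ih1]; rfl
    | false :: w => simp only [ren2, DT.eval, ih0, ih1]; rfl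
    | true :: w => simp only [ren2, DT.eval, ih0, ih1]; rfl

theorem depth_ren2 {β : Type} (t : DT β) : (ren2 t).depth = t.depth := by
  induction t with
  | leaf b => rfl
  | node w n0 n1 ih0 ih1 =>
    match w with
    | [] => simp only [ren2, DT.depth, ih0, ih1]
    | false :: w => simp only [ren2, DT.depth, ih0, ih1]
    | true :: w => simp only [ren2, DT.depth, ih0, ih1]






end Pool.Agent.AFF
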