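import Pool.Agent.Lib_helper57.AFF.Defs

/-!
# Project AFF, block E: closure under a linear scheme
-/

set_option autoImplicit false

namespace Pool.Agent.AFF

open Pool.Agent.CK

/-- the symmetric difference of the sets `T x`, `x ∈ E` -/
def e_comb (E : Finset Str) (T : Str → Finset Str) : Finset Str :=
  (E.biUnion T).filter fun w => (∑ x ∈ E, if w ∈ T x then (1 : ZMod 2) else 0) = 1

/-- the supports, with fuel -/
def e_T (ext : Str → Finset Str) : ℕ → Str → Finset Str
  | 0, _ => ∅
  | _ + 1, [] => ∅
  | _ + 1, false :: w => {w}
  | k + 1, true :: u => e_comb (ext u) (e_T ext k)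

theorem e_comb_congr {E : Finset Str} {T T' : Str → Finset Str} (h : ∀ x ∈ E, T x = T' x) :
    e_comb E T = e_comb E T' := by
  unfold e_comb
  have h1 : E.biUnion T = E.biUnion T' := Finset.biUnion_congr rfl h
  rw [h1]
  refine Finset.filter_congr fun w _ => ?_
  have h2 : (∑ x ∈ E, if w ∈ T x then (1 : ZMod 2) else 0) =
      ∑ x ∈ E, if w ∈ T' x then (1 : ZMod 2) else 0 :=
    Finset.sum_congr rfl fun x hx => by rw [h x hx]
  rw [h2]

theorem e_T_stable (ext : Str → Finset Str) (hext : ∀ u, ∀ x ∈ ext u, x.length ≤ u.length) :
    ∀ (m : ℕ) (v : Str), v.length ≤ m → ∀ k, v.length ≤ k →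
      e_T ext (k + 1) v = e_T ext (v.length + 1) v := by
  intro m
  induction m with
  | zero =>
    intro v hv k _
    have : v = [] := List.eq_nil_of_length_eq_zero (by omega)
    subst this
    simp [e_T]
  | succ m ih =>
    intro v hv k hk
    match v with
    | [] => simp [e_T]
    | false :: w => simp [e_T]
    | true :: u =>
      simp only [List.length_cons] at hv hk ⊢
      have h1 : e_T ext (k + 1) (true :: u) = e_comb (ext u) (e_T ext k) := by
        simp [e_T]
      have h2 : e_T ext (u.length + 1 + 1) (true :: u) =
          e_comb (ext u) (e_T ext (u.length + 1)) := by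
        rw [e_T]
      rw [h1, h2]
      refine e_comb_congr fun x hx => ?_
      have hx1 := hext u x hx
      obtain ⟨k', rfl⟩ : ∃ k', k = k' + 1 := ⟨k - 1, by omega⟩
      rw [ih x (by omega) k' (by omega), ih x (by omega) u.length hx1]

theorem e_T_true (ext : Str → Finset Str) (hext : ∀ u, ∀ x ∈ ext u, x.length ≤ u.length)
    (u : Str) : e_T ext ((true :: u).length + 1) (true :: u) =
      e_comb (ext u) (fun v => e_T ext (v.length + 1) v) := by
  have h1 : e_T ext ((true :: u).length + 1) (true :: u) =
      e_comb (ext u) (e_T ext (u.length + 1)) := by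
    simp only [List.length_cons]
    rw [e_T]
  rw [h1]
  refine e_comb_congr fun x hx => ?_
  exact e_T_stable ext hext x.length x le_rfl u.length (hext u x hx)

theorem e_two (c : ZMod 2) : (if c = 1 then (1 : ZMod 2) else 0) = c := by
  revert c; decide

theorem e_par (A : Lang) (E : Finset Str) (T : Str → Finset Str) :
    par A (e_comb E T) = ∑ x ∈ E, par A (T x) := by
  unfold par e_comb
  rw [Finset.sum_filter]
  have h1 : ∀ w : Str, (if (∑ x ∈ E, if w ∈ T x then (1 : ZMod 2) else 0) = 1 then b2 (A w)
      else 0) = ∑ x ∈ E, if w ∈ T x then b2 (A w) else 0 := by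
    intro w
    have h2 : (if (∑ x ∈ E, if w ∈ T x then (1 : ZMod 2) else 0) = 1 then b2 (A w) else 0) =
        (if (∑ x ∈ E, if w ∈ T x then (1 : ZMod 2) else 0) = 1 then (1 : ZMod 2) else 0) *
          b2 (A w) := by
      split_ifs <;> simp
    rw [h2, e_two, Finset.sum_mul]
    refine Finset.sum_congr rfl fun x _ => ?_
    split_ifs <;> simp
  simp_rw [h1]
  rw [Finset.sum_comm]
  refine Finset.sum_congr rfl fun x hx => ?_
  rw [← Finset.sum_filter]
  refine Finset.sum_congr ?_ fun _ _ => rfl
  ext w
  simp only [Finset.mem_filter, Finset.mem_biUnion]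
  exact ⟨fun h => h.2, fun h => ⟨⟨x, hx, h⟩, h⟩⟩

theorem e_b2_Lam (T : Str → Finset Str) (A : Lang) (x : Str) :
    b2 (Lam T A x) = par A (T x) := by
  unfold b2 Lam
  simp only [decide_eq_true_eq]
  exact e_two _

theorem exists_closed (ext : Str → Finset Str)
    (hext : ∀ u, ∀ x ∈ ext u, x.length ≤ u.length) :
    ∃ T : Str → Finset Str, Short T ∧ T [] = ∅ ∧ (∀ w, T (false :: w) = {w}) ∧
      ∀ A : Lang, Closed ext (Lam T A) := by
  refine ⟨fun v => e_T ext (v.length + 1) v, ?_, ?_, ?_, ?_⟩
  · have key : ∀ (m : ℕ) (v : Str), v.length ≤ m → ∀ w ∈ e_T ext (v.length + 1) v,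
        w.length < v.length := by
      intro m
      induction m with
      | zero =>
        intro v hv w hw
        have : v = [] := List.eq_nil_of_length_eq_zero (by omega)
        subst this
        simp [e_T] at hw
      | succ m ih =>
        intro v hv w hw
        match v with
        | [] => simp [e_T] at hw
        | false :: w' =>
          simp only [e_T, Finset.mem_singleton] at hw
          subst hw
          simp
        | true :: u =>
          rw [e_T_true ext hext u] at hw
          unfold e_comb at hw
          rw [Finset.mem_filter, Finset.mem_biUnion] at hw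
          obtain ⟨⟨x, hx, hwx⟩, _⟩ := hw
          have hx1 := hext u x hx
          simp only [List.length_cons] at hv ⊢
          have := ih x (by omega) w hwx
          omega
    intro v w hw
    exact key v.length v le_rfl w hw
  · simp [e_T]
  · intro w
    simp [e_T]
  · intro A u
    have h1 : par A (e_T ext ((true :: u).length + 1) (true :: u)) =
        (((ext u).filter fun x => Lam (fun v => e_T ext (v.length + 1) v) A x = true).card :
          ZMod 2) := by
      rw [e_T_true ext hext u, e_par, Finset.card_filter]
      push_cast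
      refine Finset.sum_congr rfl fun x _ => ?_
      rw [← e_b2_Lam (fun v => e_T ext (v.length + 1) v) A x]
      rfl
    show decide (par A (e_T ext ((true :: u).length + 1) (true :: u)) = 1) = _
    rw [h1]
    congr 1
    rw [ZMod.natCast_eq_one_iff_odd]


end Pool.Agent.AFF
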