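import Pool.Agent.Lib_helper57.AFF.Defs

/-!
# AFF block F: multilinear extensions
-/

set_option autoImplicit false

namespace Pool.Agent.AFF

open Pool.Agent.CK

theorem f_zmod (x : ZMod 2) : x = 0 ∨ x = 1 := by
  revert x; decide

/-- the weight of the point `b` in the multilinear extension at `α` -/
def f_wt {F : Type} [Field F] {n : ℕ} (α : Fin n → F) (b : Fin n → Bool) : F :=
  ∏ j, (if b j = true then α j else 1 + α j)

open Classical in
/-- the set of the points whose weights are mapped to `1` -/
noncomputable def f_set {F : Type} [Field F] [Module (ZMod 2) F] {n : ℕ} (α : Fin n → F)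
    (l : F →ₗ[ZMod 2] ZMod 2) : Finset Str :=
  (Finset.univ.filter fun b : Fin n → Bool => l (f_wt α b) = 1).image List.ofFn

theorem f_set_length {F : Type} [Field F] [Module (ZMod 2) F] {n : ℕ} (α : Fin n → F)
    (l : F →ₗ[ZMod 2] ZMod 2) : ∀ x ∈ f_set α l, x.length = n := by
  classical
  intro x hx
  unfold f_set at hx
  rw [Finset.mem_image] at hx
  obtain ⟨b, _, rfl⟩ := hx
  exact List.length_ofFn

theorem f_set_par {F : Type} [Field F] [Module (ZMod 2) F] {n : ℕ} (α : Fin n → F)
    (l : F →ₗ[ZMod 2] ZMod 2) (O : Lang) :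
    (((f_set α l).filter fun x => O x = true).card : ZMod 2) =
      l (mlx (fun b : Fin n → Bool => O (List.ofFn b)) α) := by
  classical
  have hinj : Function.Injective (List.ofFn : (Fin n → Bool) → Str) :=
    List.ofFn_injective
  have h1 : (f_set α l).filter (fun x => O x = true) =
      ((Finset.univ.filter fun b : Fin n → Bool => l (f_wt α b) = 1).filter
        fun b => O (List.ofFn b) = true).image List.ofFn := by
    unfold f_set
    rw [Finset.filter_image]
  rw [h1, Finset.card_image_of_injective _ hinj, Finset.card_filter, Nat.cast_sum,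
    Finset.sum_filter]
  unfold mlx
  rw [map_sum]
  refine Finset.sum_congr rfl fun b _ => ?_
  have h2 : (∏ j, (if b j = true then α j else 1 + α j)) = f_wt α b := rfl
  rw [h2]
  rcases f_zmod (l (f_wt α b)) with h | h
  · by_cases hO : O (List.ofFn b) = true
    · simp [h, hO]
    · simp [h, hO]
  · by_cases hO : O (List.ofFn b) = true
    · simp [h, hO]
    · simp [h, hO]

theorem f_odd (n : ℕ) : Odd n ↔ (n : ZMod 2) = 1 := by
  rw [← Nat.cast_one (R := ZMod 2), ZMod.natCast_eq_natCast_iff, Nat.odd_iff]
  rfl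

theorem exists_mlx (pt : Str → (n : ℕ) × (k : ℕ) × (Fin n → GaloisField 2 k) ×
      (GaloisField 2 k →ₗ[ZMod 2] ZMod 2)) (hpt : ∀ u, (pt u).1 ≤ u.length) :
    ∃ ext : Str → Finset Str, (∀ u, ∀ x ∈ ext u, x.length ≤ u.length) ∧
      ∀ (O : Lang) (u : Str),
        decide (Odd ((ext u).filter fun x => O x = true).card) =
          decide ((pt u).2.2.2 (mlx (fun b : Fin (pt u).1 → Bool => O (List.ofFn b))
            (pt u).2.2.1) = 1) := by
  refine ⟨fun u => f_set (pt u).2.2.1 (pt u).2.2.2, ?_, ?_⟩
  · intro u x hx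
    rw [f_set_length _ _ x hx]
    exact hpt u
  · intro O u
    refine decide_eq_decide.mpr ?_
    rw [f_odd, f_set_par]


end Pool.Agent.AFF
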