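import Pool.Agent.Lib_helper57.AFF.A
import Pool.Agent.Lib_helper57.AFF.C1
import Pool.Agent.Lib_helper57.AFF.C2
import Pool.Agent.Lib_helper57.AFF.C3
import Pool.Agent.Lib_helper57.AFF.D
import Pool.Agent.Lib_helper57.AFF.E
import Pool.Agent.Lib_helper57.AFF.F

/-!
# The mask library without the program transformer `G` (MP_675993_lc)
-/
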